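import Pool.Agent.H24.T4C.Two
import Pool.Agent.H36.T4.AlvR

/-!
# The tie with straight side images in the context

`TI`: one system of hops with `N + 1` moving coordinates `z`; `W`: the digits of the side images of the
exact point, read off from the codes `cd` of the line and the time up to `K`; the codes are few bits
given the record `G`. The velocities are free over `G`: the codes do not occur there. `tie_gen`: the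
first digits of the velocities are few bits given `G` on a large event.
-/

set_option autoImplicit false

namespace Pool.TIU64

open Finset Real
open Pool.Agent.H49.Ent Pool.Agent.H32.Dense Pool.STK Pool.TQ Pool.T4H Pool.T4C
open Pool.K2S (Pe)
open Pool.BFL (Pb)
open Pool.PR46 (P1 P1_pos)
open Pool.DIR21 (Pb_Pe)
open Pool.DIR16 (Pe_cc cond_cc Pe_le_one)
open Pool.T4M (alive_gen ediv_mem few_step full_on CH_on mi_on)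

/-- The tie with `N + 1` coordinates, with or without images. -/
def TS (N : ℕ) (im : Prop) : Prop := ∀ h : ℝ, 0 < h → h ≤ 1 → ∃ (a : ℕ) (η δ ϖ : ℝ),
    1 ≤ a ∧ 0 < η ∧ 0 < δ ∧ 0 < ϖ ∧ ∀ K : ℕ, ∃ u₀ : ℕ,
    ∀ (Ω Λ Γ 𝒞 𝒩 Φ υ : Type) (_ : Fintype Ω) (p : Ω → ℝ) (L : Ω → Λ)
    (t tf : Ω → ℤ) (G : Ω → Γ) (D : Λ → Fin (N + 1) → ℤ) (P0 : Λ → Fin (N + 1) → ℝ) (C : Λ → 𝒞)
    (Nt : Λ → 𝒩) (Fp : Ω → Φ) (z : Φ → Fin (N + 1) → ℤ) (Yb : Φ → υ) (M u : ℕ), u₀ ≤ u →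
    TieA (N := N) p L t tf G D P0 C Nt Fp z Yb M h η δ ϖ u a K →
    (im → FI1G (N := N) p L Fp (fun ω => z (Fp ω)) (fun ω => Yb (Fp ω)) u a 0
      (u * Real.log 2 - η * u) ϖ) → False

theorem ts_one : TS 0 False := by
  intro h h0 h1
  obtain ⟨a, η, δ, ϖ, ha, hη, hδ, hϖ, H⟩ := t4_1 h h0 h1
  refine ⟨a, η, δ, ϖ, ha, hη, hδ, hϖ, fun K => ?_⟩
  obtain ⟨u₀, H2⟩ := H K
  refine ⟨u₀, fun Ω Λ Γ 𝒞 𝒩 Φ υ _ p L t tf G D P0 C Nt Fp z Yb M u hu T _ => ?_⟩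
  exact H2 Ω Λ Γ 𝒞 𝒩 Φ υ _ p L t tf G D P0 C Nt Fp z Yb M u hu T

theorem ts_two : TS 1 True := by
  intro h h0 h1
  obtain ⟨a, η, δ, ϖ, ha, hη, hδ, hϖ, H⟩ := t4_2 h h0 h1
  refine ⟨a, η, δ, ϖ, ha, hη, hδ, hϖ, fun K => ?_⟩
  obtain ⟨u₀, H2⟩ := H K
  refine ⟨u₀, fun Ω Λ Γ 𝒞 𝒩 Φ υ _ p L t tf G D P0 C Nt Fp z Yb M u hu T I => ?_⟩
  exact H2 Ω Λ Γ 𝒞 𝒩 Φ υ _ p L t tf G D P0 C Nt Fp z Yb M u hu T (I trivial)

/-- The upper digits of the velocities. -/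
def Dn {Λ : Type} {n : ℕ} (D : Λ → Fin n → ℤ) (m : ℕ) (s : Λ) (i : Fin n) : ℤ := D s i / 2 ^ m

/-- **The hypotheses.** `W`: the digits of the side images at the exact point; `cd`: the codes of the
side paths of the line; `pv`: the values of the side images from the codes at the time `tf`. -/
structure TI {Ω Λ Φ Γ 𝒞 𝒮 υ : Type} [Fintype Ω] {N r : ℕ} (p : Ω → ℝ) (L : Ω → Λ) (t tf : Ω → ℤ)
    (G : Ω → Γ) (D : Λ → Fin (N + 1) → ℤ) (P0 : Λ → Fin (N + 1) → ℝ) (C : Λ → 𝒞) (cd : Λ → 𝒮)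
    (pv : 𝒞 → 𝒮 → ℤ → Fin r → ℤ) (Fp : Ω → Φ) (z : Φ → Fin (N + 1) → ℤ) (Y0 : Φ → υ)
    (W : Φ → Fin r → ℤ) (m M K : ℕ) (e h ϖ : ℝ) : Prop where
  law : IsLaw p
  e0 : 0 ≤ e
  mM : m ≤ M
  tb : ∀ ω, 0 < p ω → |t ω| ≤ ((2 ^ m : ℕ) : ℤ)
  tfb : ∀ ω, 0 < p ω → |tf ω| ≤ ((2 ^ M : ℕ) : ℤ)
  tt : ∀ ω, 0 < p ω → |(tf ω : ℝ) / 2 ^ M - t ω / 2 ^ m| ≤ 1 / 2 ^ m
  pos : ∀ ω, 0 < p ω → ∀ i, |(z (Fp ω) i : ℝ) - (P0 (L ω) i + D (L ω) i * (tf ω / 2 ^ M))| ≤ K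
  GC : ∀ ω ω', 0 < p ω → 0 < p ω' → G ω = G ω' → C (L ω) = C (L ω')
  Gt : ∀ ω ω', 0 < p ω → 0 < p ω' → G ω = G ω' → t ω = t ω' ∧ tf ω = tf ω'
  Gz : ∀ ω ω', 0 < p ω → 0 < p ω' → G ω = G ω' → ∀ i, |(z (Fp ω) i : ℝ) - z (Fp ω') i| ≤ K
  Yt : ∀ ω ω', 0 < p ω → 0 < p ω' → tf ω = tf ω' → C (L ω) = C (L ω') → Y0 (Fp ω) = Y0 (Fp ω')
  side : ∀ ω, 0 < p ω → ∀ j, |W (Fp ω) j - pv (C (L ω)) (cd (L ω)) (tf ω) j| ≤ K
  full : M * Real.log 2 - e ≤ CH p tf L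
  free : CH p (fun ω => D (L ω)) (fun ω => (Dn D m (L ω), C (L ω))) - e ≤
    CH p (fun ω => D (L ω)) (fun ω => (G ω, Dn D m (L ω)))
  few : CH p (fun ω => (cd (L ω), Dn D m (L ω))) G ≤ e
  row : ∀ E : Ω → Prop, ϖ ≤ Pe p E → 0 < Pe p E → CH (cond p E True) (fun ω => z (Fp ω))
    (fun ω => ((fun l => z (Fp ω) l / 2 ^ m), (Y0 (Fp ω), W (Fp ω)))) ≤
      ((N : ℝ) + 1 - h) * m * Real.log 2 + e

/-- The side digits, shifted by `b` and cut at `2 ^ s`. -/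
def yc {Φ υ : Type} {r : ℕ} (Y0 : Φ → υ) (W : Φ → Fin r → ℤ) (s : ℕ) (b : Fin r → ℕ) (F : Φ) :
    υ × (Fin r → ℤ) := (Y0 F, fun j => (W F j + b j) / 2 ^ s)

/-- **One shift.** -/
theorem one_shift {Ω : Type} [Fintype Ω] {p : Ω → ℝ} (hp : IsLaw p) (x y : Ω → ℤ) {K : ℕ}
    (h : ∀ ω, 0 < p ω → |x ω - y ω| ≤ K) (s : ℕ) :
    ∃ b : ℕ, Pe p (fun ω => (x ω + b) / 2 ^ s ≠ (y ω + b) / 2 ^ s) ≤ (K + 1) / 2 ^ s := by
  have ps : (0 : ℝ) < 2 ^ s := by positivity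
  obtain ⟨i, -, hi⟩ := Pool.PR46.shift_eq hp (fun ω => (x ω : ℝ) / 2 ^ s)
    (fun ω => (y ω : ℝ) / 2 ^ s) (θ := K / 2 ^ s) (η := 0) (by positivity) (by
      rw [Pb_Pe]
      have h1 : Pe p (fun ω => (K : ℝ) / 2 ^ s < |(x ω : ℝ) / 2 ^ s - (y ω : ℝ) / 2 ^ s|) ≤
          Pe p (fun _ => False) := Pe_mp hp.nonneg fun ω hω h2 => by
        have h3 : |(x ω : ℝ) - y ω| ≤ K := by exact_mod_cast h ω hω
        rw [← sub_div, abs_div, abs_of_pos ps, div_lt_div_iff_of_pos_right ps] at h2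
        exact absurd h2 (not_lt.2 h3)
      rw [Pe_false] at h1
      exact h1) (2 ^ s) Nat.one_le_two_pow
  refine ⟨i, ?_⟩
  rw [Pb_Pe] at hi
  have e1 : ∀ z : ℤ, ⌊(z : ℝ) / 2 ^ s + (i : ℝ) / ((2 ^ s : ℕ) : ℝ)⌋ = (z + i) / 2 ^ s := fun z => by
    have e2 : (z : ℝ) / 2 ^ s + (i : ℝ) / ((2 ^ s : ℕ) : ℝ) = ((z + i : ℤ) : ℝ) / ((2 ^ s : ℕ) : ℝ) := by
      push_cast
      rw [add_div]
    rw [e2, Int.floor_div_natCast, Int.floor_intCast]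
    push_cast
    rfl
  have h2 : Pe p (fun ω => (x ω + i) / 2 ^ s ≠ (y ω + i) / 2 ^ s) ≤
      Pe p (fun ω => ⌊(x ω : ℝ) / 2 ^ s + (i : ℝ) / ((2 ^ s : ℕ) : ℝ)⌋ ≠
        ⌊(y ω : ℝ) / 2 ^ s + (i : ℝ) / ((2 ^ s : ℕ) : ℝ)⌋) := Pe_mo hp.nonneg fun ω h3 => by
    rw [e1, e1]
    exact h3
  refine h2.trans (hi.trans (le_of_eq ?_))
  push_cast
  ring

/-- **The shifts of a list.** -/
theorem shifts {Ω : Type} [Fintype Ω] {p : Ω → ℝ} (hp : IsLaw p) {r : ℕ} (x y : Ω → Fin r → ℤ)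
    {K : ℕ} (h : ∀ ω, 0 < p ω → ∀ j, |x ω j - y ω j| ≤ K) (s : ℕ)
    (hs : 2 * (r * (K + 1) : ℝ) ≤ 2 ^ s) : ∃ b : Fin r → ℕ,
      1 / 2 ≤ Pe p (fun ω => ∀ j, (x ω j + b j) / 2 ^ s = (y ω j + b j) / 2 ^ s) := by
  have ps : (0 : ℝ) < 2 ^ s := by positivity
  have h1 : ∀ j : Fin r, ∃ b : ℕ,
      Pe p (fun ω => (x ω j + b) / 2 ^ s ≠ (y ω j + b) / 2 ^ s) ≤ (K + 1) / 2 ^ s := fun j =>
    one_shift hp (fun ω => x ω j) (fun ω => y ω j) (fun ω hω => h ω hω j) s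
  choose b hb using h1
  refine ⟨b, ?_⟩
  have h2 := Pe_le_sum hp.nonneg (n := r)
    (E := fun ω => ¬ ∀ j, (x ω j + b j) / 2 ^ s = (y ω j + b j) / 2 ^ s)
    (F := fun j ω => (x ω j + b j) / 2 ^ s ≠ (y ω j + b j) / 2 ^ s) (fun ω _ h3 => by
      push Not at h3
      exact h3)
  have h3 : ∑ j : Fin r, Pe p (fun ω => (x ω j + b j) / 2 ^ s ≠ (y ω j + b j) / 2 ^ s) ≤ 1 / 2 := by
    refine (Finset.sum_le_sum fun j _ => hb j).trans ?_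
    rw [Finset.sum_const, Finset.card_univ, Fintype.card_fin, nsmul_eq_mul, ← mul_div_assoc,
      div_le_iff₀ ps]
    linarith
  have h4 := Pe_not hp (fun ω => ¬ ∀ j, (x ω j + b j) / 2 ^ s = (y ω j + b j) / 2 ^ s)
  have h5 : Pe p (fun ω => ¬ ¬ ∀ j, (x ω j + b j) / 2 ^ s = (y ω j + b j) / 2 ^ s) ≤
      Pe p (fun ω => ∀ j, (x ω j + b j) / 2 ^ s = (y ω j + b j) / 2 ^ s) :=
    Pe_mo hp.nonneg fun ω h6 => not_not.1 h6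
  linarith

/-- The side digits given the cut ones. -/
theorem few_cut {Ω υ : Type} [Fintype Ω] {p : Ω → ℝ} (hp : IsLaw p) {r : ℕ} (Y : Ω → υ)
    (x : Ω → Fin r → ℤ) (s : ℕ) (b : Fin r → ℕ) {T : Type} (Z : Ω → T) :
    CH p x (fun ω => (Z ω, (Y ω, fun j => (x ω j + b j) / 2 ^ s))) ≤
      r * Real.log (2 * 2 ^ s + 1) := by
  have h1 := CH_le_vec hp.nonneg hp.sum_one x
    (fun ω => (Z ω, (Y ω, fun j => (x ω j + b j) / 2 ^ s))) (fun _ => (2 : ℝ) ^ s)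
    (fun ω ω' _ _ e j => by
      have e1 : (x ω j + b j) / 2 ^ s = (x ω' j + b j) / 2 ^ s :=
        congrFun (Prod.ext_iff.1 (Prod.ext_iff.1 e).2).2 j
      have e2 := floor_same e1
      push_cast at e2 ⊢
      have e3 : ((x ω j : ℝ) + b j) - ((x ω' j : ℝ) + b j) = (x ω j : ℝ) - x ω' j := by ring
      rw [e3] at e2
      exact e2)
  rw [Ex_const hp.sum_one] at h1
  exact h1

end Pool.TIU64
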