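import Pool.Agent.H64.TIU.Law

/-!
# The velocities are few bits given the record

`tie_gen`: from `TI` and the theorem `TS N im`: on a large event the first digits of the velocities
behind the upper ones are few bits given the record.
-/

set_option autoImplicit false

namespace Pool.TIU64

open Finset Real
open Pool.Agent.H49.Ent Pool.Agent.H32.Dense Pool.STK Pool.TQ Pool.T4H Pool.T4C
open Pool.K2S (Pe)
open Pool.BFL (Pb)
open Pool.PR46 (P1 P1_pos)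
open Pool.DIR21 (Pb_Pe)
open Pool.DIR16 (Pe_cc cond_cc Pe_le_one)
open Pool.T4M (alive_gen ediv_mem few_step full_on CH_on mi_on)

/-- The neighbours. -/
noncomputable def nbN {n : ℕ} (k : Fin n → ℤ) : Finset (Fin n → ℤ) :=
  Fintype.piFinset fun i => Finset.Icc (k i - 1) (k i + 1)

theorem nbN_card {n : ℕ} (k : Fin n → ℤ) : (nbN k).card ≤ 3 ^ n := by
  unfold nbN
  rw [Fintype.card_piFinset]
  simp only [Int.card_Icc]
  have h : ∀ z : ℤ, (z + 1 + 1 - (z - 1)).toNat = 3 := fun z => by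
    have : z + 1 + 1 - (z - 1) = 3 := by ring
    rw [this]
    rfl
  simp only [h]
  rw [Finset.prod_const, Finset.card_univ, Fintype.card_fin]

theorem nbN_mem {Ω Λ : Type} {N : ℕ} {D : Λ → Fin (N + 1) → ℤ} {L : Ω → Λ} {m y : ℕ} (hy : y ≤ m)
    {ω ω' : Ω} (h : ¬ BigN D L m y (ω, ω')) :
    (fun i => D (L ω) i / 2 ^ (m - y)) ∈ nbN (fun i => D (L ω') i / 2 ^ (m - y)) := by
  unfold nbN
  rw [Fintype.mem_piFinset]
  intro i
  refine ediv_mem (by positivity) ?_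
  unfold BigN at h
  push Not at h
  have h1 := piv_le (dv D L (ω, ω')) i
  have h2 : (2 : ℝ) ^ m = 2 ^ y * 2 ^ (m - y) := by
    rw [← pow_add]
    congr 1
    omega
  rw [h2] at h
  have h3 : |dv D L (ω, ω') (piv (N := N) (dv D L (ω, ω')))| < 2 ^ (m - y) :=
    lt_of_mul_lt_mul_left h (by positivity)
  have h4 : |((D (L ω') i : ℝ) - D (L ω) i)| < 2 ^ (m - y) := h1.trans_lt h3
  rw [abs_sub_comm] at h4
  exact_mod_cast h4

/-- **The velocities are few bits given the record**, on a large event. -/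
theorem tie_gen {N : ℕ} {im : Prop} (hT : TS N im) {h : ℝ} (hh0 : 0 < h) (hh : h ≤ 1) (r : ℕ) :
    ∃ (a : ℕ) (δ ϖ : ℝ), 1 ≤ a ∧ 0 < δ ∧ 0 < ϖ ∧ ∀ ε : ℝ, 0 < ε → ∃ η : ℝ, 0 < η ∧ ∀ K : ℕ,
    ∃ u₀ : ℕ, ∀ (Ω Λ Φ Γ 𝒞 𝒮 υ : Type) (_ : Fintype Ω) (p : Ω → ℝ) (L : Ω → Λ) (t tf : Ω → ℤ)
    (G : Ω → Γ) (D : Λ → Fin (N + 1) → ℤ) (P0 : Λ → Fin (N + 1) → ℝ) (C : Λ → 𝒞) (cd : Λ → 𝒮)
    (pv : 𝒞 → 𝒮 → ℤ → Fin r → ℤ) (Fp : Ω → Φ) (z : Φ → Fin (N + 1) → ℤ) (Y0 : Φ → υ)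
    (W : Φ → Fin r → ℤ) (M u : ℕ), u₀ ≤ u →
    TI p L t tf G D P0 C cd pv Fp z Y0 W (a * u) M K (η * u) h ϖ →
    (im → FI1G (N := N) p L Fp (fun ω => z (Fp ω)) (fun ω => (Y0 (Fp ω), W (Fp ω))) u a 0
      (u * Real.log 2 - η * u) ϖ) →
    ∃ E : Ω → Prop, δ ≤ Pe p E ∧
      CH (cond p E True) (fun ω i => D (L ω) i / 2 ^ (a * u - u)) G ≤ ε * u := by
  obtain ⟨a, η₀, δ₀, ϖ₀, ha, hη₀, hδ₀, hϖ₀, H⟩ := hT h hh0 hh
  refine ⟨a, δ₀ / 4, ϖ₀ / 2, ha, by positivity, by positivity, fun ε hε => ?_⟩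
  obtain ⟨η, hη⟩ : ∃ η : ℝ, η = min (η₀ / 8) (ε * δ₀ / 8) := ⟨_, rfl⟩
  have hη0 : 0 < η := by
    rw [hη]
    exact lt_min (by positivity) (by positivity)
  have hη1 : η ≤ η₀ / 8 := by rw [hη]; exact min_le_left _ _
  have hη2 : η ≤ ε * δ₀ / 8 := by rw [hη]; exact min_le_right _ _
  refine ⟨η, hη0, fun K => ?_⟩
  obtain ⟨u₁, H1⟩ := H K
  obtain ⟨s, hs⟩ : ∃ s : ℕ, 2 * (r * ((K : ℝ) + 1)) ≤ 2 ^ s := by
    obtain ⟨s, hs⟩ := pow_unbounded_of_one_lt (2 * (r * ((K : ℝ) + 1))) (one_lt_two (α := ℝ))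
    exact ⟨s, hs.le⟩
  have l2 : 0 < Real.log 2 := Real.log_pos (by norm_num)
  have l5 : 0 < Real.log 5 := Real.log_pos (by norm_num)
  have ls : 0 ≤ Real.log (2 * 2 ^ s + 1) := Real.log_nonneg (by
    have : (0 : ℝ) < 2 ^ s := by positivity
    linarith)
  obtain ⟨u₂, hu₂⟩ := ex_lin (a := η₀ / 2)
    (b := r * Real.log (2 * 2 ^ s + 1) + 2 * Real.log 5 + 2 * Real.log 2) (by positivity)
  obtain ⟨u₃, hu₃⟩ := ex_lin (a := ε / 2) (b := |Real.log (2 * (3 ^ (N + 1) : ℕ) / δ₀)|)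
    (by positivity)
  refine ⟨max u₁ (max u₂ u₃), fun Ω Λ Φ Γ 𝒞 𝒮 υ _ p L t tf G D P0 C cd pv Fp z Y0 W M u hu T
    I => ?_⟩
  have hu1 : u₁ ≤ u := (le_max_left _ _).trans hu
  have hu2 := hu₂ u ((le_max_left _ _).trans ((le_max_right _ _).trans hu))
  have hu3 := hu₃ u ((le_max_right _ _).trans ((le_max_right _ _).trans hu))
  have hu0 : (0 : ℝ) ≤ u := Nat.cast_nonneg u
  have hηu : 0 ≤ η * u := by positivity
  have hηu1 : η * u ≤ η₀ / 8 * u := mul_le_mul_of_nonneg_right hη1 hu0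
  have hη₀u : 0 ≤ η₀ * u := by positivity
  have hp := T.law
  have h0 := hp.nonneg
  -- the shifts
  obtain ⟨b, hb⟩ := shifts hp (fun ω => W (Fp ω)) (fun ω => pv (C (L ω)) (cd (L ω)) (tf ω))
    (K := K) T.side s hs
  obtain ⟨Gd, hGd⟩ : ∃ Gd : Ω → Prop, Gd = fun ω => ∀ j, (W (Fp ω) j + b j) / 2 ^ s =
    (pv (C (L ω)) (cd (L ω)) (tf ω) j + b j) / 2 ^ s := ⟨_, rfl⟩
  rw [← hGd] at hb
  have hG0 : 0 < Pe p Gd := by linarith
  have hq := cond_law h0 hG0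
  have q0 := hq.nonneg
  have hpos : ∀ ω, 0 < cond p Gd True ω → 0 < p ω ∧ Gd ω := fun ω hω => by
    have := (cond_pos_iff h0 Gd True ω).1 hω
    exact ⟨this.1, of_eq_true this.2⟩
  obtain ⟨Gn, hGn⟩ : ∃ Gn : Ω → Γ × (𝒮 × (Fin (N + 1) → ℤ)), Gn = fun ω =>
    (G ω, (cd (L ω), Dn D (a * u) (L ω))) := ⟨_, rfl⟩
  have hfew := T.few
  -- the new system
  have sys : Hp (cond p Gd True) L t tf Gn D P0 (fun l => (C l, cd l)) (Dn D (a * u)) Fp z
      (yc Y0 W s b) (a * u) M K (η₀ * u) := by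
    refine ⟨hq, hη₀u, T.mM, fun ω hω => T.tb ω (hpos ω hω).1, fun ω hω => T.tfb ω (hpos ω hω).1,
      fun ω hω => T.tt ω (hpos ω hω).1, fun ω hω => T.pos ω (hpos ω hω).1,
      fun ω ω' hω hω' e1 => ?_, fun ω ω' hω hω' e1 => ?_, fun ω ω' hω hω' e1 => ?_,
      fun ω ω' hω hω' e1 i => ?_, fun ω ω' hω hω' e1 e2 => ?_, ?_, ?_⟩
    · rw [hGn] at e1
      obtain ⟨e2, e3⟩ := Prod.ext_iff.1 e1
      obtain ⟨e4, e5⟩ := Prod.ext_iff.1 e3
      exact ⟨Prod.ext (T.GC _ _ (hpos ω hω).1 (hpos ω' hω').1 e2) e4, e5⟩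
    · rw [hGn] at e1
      exact T.Gt _ _ (hpos ω hω).1 (hpos ω' hω').1 (Prod.ext_iff.1 e1).1
    · rw [hGn] at e1
      exact T.Gz _ _ (hpos ω hω).1 (hpos ω' hω').1 (Prod.ext_iff.1 e1).1
    · rw [hGn] at e1
      have e5 := congrFun (Prod.ext_iff.1 (Prod.ext_iff.1 e1).2).2 i
      exact floor_same e5
    · have e3 : C (L ω) = C (L ω') := (Prod.ext_iff.1 e2).1
      have e4 : cd (L ω) = cd (L ω') := (Prod.ext_iff.1 e2).2
      have g1 := (hpos ω hω).2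
      have g2 := (hpos ω' hω').2
      rw [hGd] at g1 g2
      refine Prod.ext (T.Yt _ _ (hpos ω hω).1 (hpos ω' hω').1 e1 e3) (funext fun j => ?_)
      show (W (Fp ω) j + b j) / 2 ^ s = (W (Fp ω') j + b j) / 2 ^ s
      rw [g1 j, g2 j, e3, e4, e1]
    · have h1 := full_on hp tf L (cap := M * Real.log 2 + Real.log 5) (e := η * u + Real.log 5)
        (δ := 1 / 2) (E := Gd) (fun r hr hs => time_cap hr (fun ω hω => T.tfb ω (hs ω hω)) L)
        (by linarith [T.full]) (by positivity) (by norm_num) hb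
      have e1 : (η * ↑u + Real.log 5 + Real.log 2) / (1 / 2) =
        2 * (η * ↑u) + 2 * Real.log 5 + 2 * Real.log 2 := by ring
      rw [e1] at h1
      have : 0 ≤ (r : ℝ) * Real.log (2 * 2 ^ s + 1) := by positivity
      linarith
    · -- freedom
      have f1 := T.free
      have c1 := Pool.OWN68.CH_chain2 h0 (fun ω => D (L ω)) G
        (fun ω => (Dn D (a * u) (L ω), C (L ω)))
      have c2 := Pool.OWN68.CH_chain2 h0 G (fun ω => D (L ω))
        (fun ω => (Dn D (a * u) (L ω), C (L ω)))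
      have c3 := Pool.OWN68.CH_swap2 h0 (fun ω => D (L ω)) G (fun ω => (Dn D (a * u) (L ω), C (L ω)))
      have f2 : CH p (fun ω => D (L ω)) (fun ω => (G ω, Dn D (a * u) (L ω))) =
          CH p (fun ω => D (L ω)) (fun ω => (G ω, (Dn D (a * u) (L ω), C (L ω)))) := by
        refine CH_congr h0 (fun _ _ _ _ e => (Prod.ext_iff.1 e).1) (fun _ _ _ _ e =>
          (Prod.ext_iff.1 e).1) ?_ ?_
        · intro ω ω' hω hω' e
          obtain ⟨e1, e2⟩ := Prod.ext_iff.1 e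
          exact Prod.ext e1 (Prod.ext e2 (T.GC _ _ hω hω' e1))
        · intro ω ω' _ _ e
          obtain ⟨e1, e2⟩ := Prod.ext_iff.1 e
          exact Prod.ext e1 (Prod.ext_iff.1 e2).1
      have f3 := mi_on hp (E := Gd) (δ := 1 / 2) (by norm_num) hb (fun ω => D (L ω)) G
        (fun ω => (Dn D (a * u) (L ω), C (L ω))) (e := η * u) (by linarith)
      have f4 : CH (cond p Gd True) (fun ω => D (L ω))
          (fun ω => (Dn D (a * u) (L ω), (C (L ω), cd (L ω)))) ≤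
          CH (cond p Gd True) (fun ω => D (L ω)) (fun ω => (Dn D (a * u) (L ω), C (L ω))) :=
        CH_mono_cond q0 fun _ _ _ _ e => Prod.ext (Prod.ext_iff.1 e).1
          (Prod.ext_iff.1 (Prod.ext_iff.1 e).2).1
      have f5 := CH_le_add q0 (fun ω => D (L ω)) (fun ω => (cd (L ω), Dn D (a * u) (L ω)))
        (fun ω => (G ω, (Dn D (a * u) (L ω), C (L ω))))
      have f6 : CH (cond p Gd True) (fun ω => (cd (L ω), Dn D (a * u) (L ω)))
          (fun ω => (G ω, (Dn D (a * u) (L ω), C (L ω)))) ≤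
          CH (cond p Gd True) (fun ω => (cd (L ω), Dn D (a * u) (L ω))) G :=
        CH_mono_cond q0 fun _ _ _ _ e => (Prod.ext_iff.1 e).1
      have f7 := CH_on hp (fun ω => (cd (L ω), Dn D (a * u) (L ω))) G (E := Gd) (δ := 1 / 2)
        (by norm_num) hb
      have f8 : CH (cond p Gd True) (fun ω => D (L ω))
          (fun ω => ((cd (L ω), Dn D (a * u) (L ω)), (G ω, (Dn D (a * u) (L ω), C (L ω))))) ≤
          CH (cond p Gd True) (fun ω => D (L ω)) Gn :=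
        CH_mono_cond q0 fun ω ω' _ _ e => by
          obtain ⟨e1, e2⟩ := Prod.ext_iff.1 e
          rw [hGn]
          exact Prod.ext (Prod.ext_iff.1 e2).1 e1
      have e1 : (η * ↑u + Real.log 2) / (1 / 2) = 2 * (η * ↑u) + 2 * Real.log 2 := by ring
      have e2 : CH p (fun ω => (cd (L ω), Dn D (a * u) (L ω))) G / (1 / 2) =
        2 * CH p (fun ω => (cd (L ω), Dn D (a * u) (L ω))) G := by ring
      rw [e1] at f3
      rw [e2] at f7
      have : 0 ≤ (r : ℝ) * Real.log (2 * 2 ^ s + 1) := by positivity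
      linarith
  -- the row and the images on the event
  have hsub : ∀ E : Ω → Prop, ϖ₀ ≤ Pe (cond p Gd True) E → 0 < Pe (cond p Gd True) E →
      ϖ₀ / 2 ≤ Pe p (fun ω => Gd ω ∧ E ω) ∧ 0 < Pe p (fun ω => Gd ω ∧ E ω) ∧
        cond (cond p Gd True) E True = cond p (fun ω => Gd ω ∧ E ω) True := fun E h1 h2 => by
    have e1 : Pe p (fun ω => Gd ω ∧ E ω) = Pe p Gd * Pe (cond p Gd True) E := Pe_cc hG0
    refine ⟨?_, by rw [e1]; positivity, cond_cc hG0⟩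
    rw [e1]
    have := mul_le_mul hb h1 hϖ₀.le hG0.le
    linarith
  have row : RowT (cond p Gd True) (fun ω => z (Fp ω)) (fun ω => yc Y0 W s b (Fp ω)) (a * u)
      (((N : ℝ) + 1 - h) * (a * u) * Real.log 2 + η₀ * u) ϖ₀ := by
    intro E h1 h2
    obtain ⟨g1, g2, g3⟩ := hsub E h1 h2
    rw [g3]
    have hc := cond_law h0 g2
    have r1 := T.row _ g1 g2
    have r2 := CH_le_add hc.nonneg (fun ω => z (Fp ω)) (fun ω => W (Fp ω))
      (fun ω => ((fun l => z (Fp ω) l / 2 ^ (a * u)), yc Y0 W s b (Fp ω)))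
    have r3 := few_cut hc (fun ω => Y0 (Fp ω)) (fun ω => W (Fp ω)) s b
      (fun ω l => z (Fp ω) l / 2 ^ (a * u))
    have r4 : CH (cond p (fun ω => Gd ω ∧ E ω) True) (fun ω => z (Fp ω))
        (fun ω => (W (Fp ω), ((fun l => z (Fp ω) l / 2 ^ (a * u)), yc Y0 W s b (Fp ω)))) ≤
        CH (cond p (fun ω => Gd ω ∧ E ω) True) (fun ω => z (Fp ω))
          (fun ω => ((fun l => z (Fp ω) l / 2 ^ (a * u)), (Y0 (Fp ω), W (Fp ω)))) :=
      CH_mono_cond hc.nonneg fun ω ω' _ _ e => by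
        obtain ⟨e1, e2⟩ := Prod.ext_iff.1 e
        obtain ⟨e3, e4⟩ := Prod.ext_iff.1 e2
        exact Prod.ext e3 (Prod.ext (Prod.ext_iff.1 e4).1 e1)
    push_cast at r1
    have r5 : CH (cond p (fun ω => Gd ω ∧ E ω) True) (fun ω => W (Fp ω))
        (fun ω => ((fun l => z (Fp ω) l / 2 ^ (a * u)), yc Y0 W s b (Fp ω))) ≤
        r * Real.log (2 * 2 ^ s + 1) := r3
    linarith
  have img : im → FI1G (N := N) (cond p Gd True) L Fp (fun ω => z (Fp ω))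
      (fun ω => yc Y0 W s b (Fp ω)) u a 0 (u * Real.log 2 - η₀ * u) ϖ₀ := by
    intro hi j kL kP ka E h1 h2 h3 i hir Q hQ1 hQ2 hQ3
    obtain ⟨g1, g2, g3⟩ := hsub Q hQ2 hQ3
    rw [g3]
    have hc := cond_law h0 g2
    have k1 := I hi j kL kP ka (fun ω => Gd ω ∧ E ω) h1 h2 (fun ω hω hE => h3 ω
      ((cond_pos_iff h0 Gd True ω).2 ⟨hω, eq_true hE.1⟩) hE.2) i hir
      (fun ω => Gd ω ∧ Q ω) (fun ω hω => ⟨hω.1, hQ1 ω hω.2⟩) g1 g2
    refine le_trans (by linarith) (k1.trans ?_)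
    refine CH_mono_cond hc.nonneg fun ω ω' _ _ e => ?_
    obtain ⟨e1, e2⟩ := Prod.ext_iff.1 e
    obtain ⟨e3, e4⟩ := Prod.ext_iff.1 e2
    obtain ⟨e5, e6⟩ := Prod.ext_iff.1 e4
    refine Prod.ext e1 (Prod.ext e3 (Prod.ext e5 (funext fun j => ?_)))
    show (W (Fp ω) j + b j) / 2 ^ s = (W (Fp ω') j + b j) / 2 ^ s
    have e7 : W (Fp ω) j = W (Fp ω') j := congrFun e6 j
    rw [e7]
  -- alive is impossible
  by_contra hcon
  push Not at hcon
  have ht : u ≤ a * u := Nat.le_mul_of_pos_left u ha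
  have alv : Pe (P1 (cond p Gd True) Gn) (fun w => ¬ BigN D L (a * u) u w) ≤ δ₀ := by
    refine alive_gen hq Gn (fun ω i => D (L ω) i / 2 ^ (a * u - u))
      (fun ω ω' => ¬ BigN D L (a * u) u (ω, ω')) nbN hδ₀ (fun k => nbN_card k)
      (fun ω ω' h1 => nbN_mem ht h1) fun E hE => ?_
    have e1 : Pe p (fun ω => Gd ω ∧ E ω) = Pe p Gd * Pe (cond p Gd True) E := Pe_cc hG0
    have hE0 : 0 < Pe (cond p Gd True) E := lt_of_lt_of_le (by positivity) hE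
    have g1 : δ₀ / 4 ≤ Pe p (fun ω => Gd ω ∧ E ω) := by
      rw [e1]
      have := mul_le_mul hb hE (by positivity) hG0.le
      linarith
    have g2 : 0 < Pe p (fun ω => Gd ω ∧ E ω) := lt_of_lt_of_le (by positivity) g1
    have k1 := hcon _ g1
    rw [cond_cc hG0]
    have hc := cond_law h0 g2
    have k2 := CH_le_add hc.nonneg (fun ω i => D (L ω) i / 2 ^ (a * u - u))
      (fun ω => (cd (L ω), Dn D (a * u) (L ω))) G
    have k3 := CH_on hp (fun ω => (cd (L ω), Dn D (a * u) (L ω))) G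
      (E := fun ω => Gd ω ∧ E ω) (δ := δ₀ / 4) (by positivity) g1
    have k4 : CH p (fun ω => (cd (L ω), Dn D (a * u) (L ω))) G / (δ₀ / 4) ≤ ε / 2 * u := by
      rw [div_le_iff₀ (by positivity)]
      refine hfew.trans ?_
      have := mul_le_mul_of_nonneg_right hη2 hu0
      linarith
    have k5 : CH (cond p (fun ω => Gd ω ∧ E ω) True) (fun ω i => D (L ω) i / 2 ^ (a * u - u))
        (fun ω => ((cd (L ω), Dn D (a * u) (L ω)), G ω)) ≤
        CH (cond p (fun ω => Gd ω ∧ E ω) True) (fun ω i => D (L ω) i / 2 ^ (a * u - u)) Gn :=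
      CH_mono_cond hc.nonneg fun ω ω' _ _ e => by
        obtain ⟨e1, e2⟩ := Prod.ext_iff.1 e
        rw [hGn]
        exact Prod.ext e2 e1
    have k6 := le_abs_self (Real.log (2 * (3 ^ (N + 1) : ℕ) / δ₀))
    linarith
  exact H1 Ω Λ _ _ _ Φ _ _ (cond p Gd True) L t tf Gn D P0 (fun l => (C l, cd l))
    (Dn D (a * u)) Fp z (yc Y0 W s b) M u hu1 ⟨sys, alv, row⟩ img

end Pool.TIU64
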